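import Pool.Agent.Helper52.KP.StB

/-! Project KP, module COV: countable covers by exponential charts. -/

set_option autoImplicit false

namespace Pool.Agent.Helper53.KP

open Pool.Agent.Helper67.NO Pool.Agent.Helper52.KP MeasureTheory Filter
open scoped Topology

universe u

/-- Module COV. -/
theorem hCOV (h1 : StNEA.{u}) (h2 : StORB.{u}) : StCOV.{u} := by
  intro g _ _ _ _ q
  classical
  obtain ⟨-, -, -, hch, -, hfr, -⟩ := h2 g
  -- good points
  let Gd : g → Prop := fun x => x ≠ 0 ∧ IsNilpotent (LieAlgebra.ad ℂ g x) ∧ rk x = q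
  have hloc : ∀ x : g, Gd x → ∃ (X : Fin q → g) (δ : ℝ), 0 < δ ∧ ∀ y : g, size (y - x) < δ →
      IsNilpotent (LieAlgebra.ad ℂ g y) → rk y = q → ∃ w, chart x X w = y := by
    rintro x ⟨hx0, hxn, hxq⟩
    subst hxq
    obtain ⟨X, hX⟩ := hfr x
    obtain ⟨W, δ, ε, hδ, -, -, hy, -⟩ := h1 g x hx0 hxn (rk x) X hX
    exact ⟨X, δ, hδ, fun y h3 h4 h5 => ⟨W y, (hy y h3 h4 h5).symm⟩⟩
  choose! X δ hδ hcov using hloc
  -- coordinates
  let e := (Module.finBasis ℂ g).equivFun
  let A : Set (Fin (Module.finrank ℂ g) → ℂ) := {v | Gd (e.symm v)}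
  let U : (Fin (Module.finrank ℂ g) → ℂ) → Set (Fin (Module.finrank ℂ g) → ℂ) :=
    fun v => {v' | ∑ i, ‖v' i - v i‖ < δ (e.symm v)}
  have hU : ∀ v ∈ A, U v ∈ 𝓝[A] v := by
    intro v hv
    refine mem_nhdsWithin_of_mem_nhds (IsOpen.mem_nhds ?_ ?_)
    · refine isOpen_lt (continuous_finsetSum _ fun i _ => ?_) continuous_const
      exact ((continuous_apply i).sub continuous_const).norm
    · change ∑ i, ‖v i - v i‖ < δ (e.symm v)
      simpa using hδ _ hv
  obtain ⟨t, htA, htc, htcov⟩ := TopologicalSpace.countable_cover_nhdsWithin hU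
  let F : (Fin (Module.finrank ℂ g) → ℂ) → ((Fin q → ℂ) → g) := fun v =>
    chart (e.symm v) (X (e.symm v))
  have hc : (insert (fun _ : Fin q → ℂ => (0 : g)) (F '' t)).Countable :=
    (htc.image F).insert _
  obtain ⟨c, hcr⟩ := hc.exists_eq_range (Set.insert_nonempty _ _)
  refine ⟨c, fun i => ?_, fun x hx hxq => ?_⟩
  · have hi : c i ∈ insert (fun _ : Fin q → ℂ => (0 : g)) (F '' t) := by
      rw [hcr]
      exact ⟨i, rfl⟩
    rcases hi with hi | ⟨v, -, hv⟩
    · rw [hi]
      exact differentiableOn_const _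
    · rw [← hv]
      exact (hch q (e.symm v) (X (e.symm v))).1
  · by_cases hx0 : x = 0
    · have h0 : (fun _ : Fin q → ℂ => (0 : g)) ∈ Set.range c := by
        rw [← hcr]
        exact Set.mem_insert _ _
      obtain ⟨i, hi⟩ := h0
      exact ⟨i, 0, by rw [hi, hx0]⟩
    · have hxA : e x ∈ A := by
        change Gd (e.symm (e x))
        rw [LinearEquiv.symm_apply_apply]
        exact ⟨hx0, hx, hxq⟩
      have hm := htcov hxA
      simp only [Set.mem_iUnion] at hm
      obtain ⟨v, hvt, hv⟩ := hm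
      have hvA := htA hvt
      have hsz : size (x - e.symm v) < δ (e.symm v) := by
        have : size (x - e.symm v) = ∑ i, ‖e x i - v i‖ := by
          unfold size
          refine Finset.sum_congr rfl fun i _ => ?_
          have h3 : (Module.finBasis ℂ g).repr (x - e.symm v) i = e (x - e.symm v) i := rfl
          rw [h3, map_sub, LinearEquiv.apply_symm_apply]
          rfl
        rw [this]
        exact hv
      obtain ⟨w, hw⟩ := hcov _ hvA x hsz hx hxq
      have hF : F v ∈ Set.range c := by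
        rw [← hcr]
        exact Set.mem_insert_of_mem _ ⟨v, hvt, rfl⟩
      obtain ⟨i, hi⟩ := hF
      exact ⟨i, w, by rw [hi]; exact hw⟩

end Pool.Agent.Helper53.KP
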