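import Pool.Agent.Helper85.KP.StE

/-! Project KP, module ETM: the mean of the jumps does not move in short time. -/

set_option autoImplicit false

namespace Pool.Agent.Helper53.KP

open MeasureTheory Filter Pool.Agent.Helper52.KP Pool.Agent.Helper85.KP
open scoped Topology ContDiff

private lemma isOpen_U (C : Cone) : IsOpen C.U :=
  isOpen_ne_fun (MvPolynomial.continuous_eval C.Δ) continuous_const

private lemma measS1 (C : Cone) (h : Good C) : MeasurableSet (S1 C) := by
  have hopen : IsOpen (C.U ∩ C.u ⁻¹' Set.Iio 1) :=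
    h.usm.continuousOn.isOpen_inter_preimage (isOpen_U C) isOpen_Iio
  exact hopen.measurableSet

private lemma contPPn {m N : ℕ} (n : ℕ) (s : Fin N → MvPolynomial (Fin m) ℂ) (lam : Fin N → ℕ)
    (t : ℝ) : Continuous (PPn n s lam t) := by
  unfold PPn
  refine continuous_finsetSum _ fun j _ => ?_
  exact continuous_const.mul ((MvPolynomial.continuous_eval (s j)).norm.pow 2)

private lemma contPP {m N : ℕ} (s : Fin N → MvPolynomial (Fin m) ℂ) (lam : Fin N → ℕ)
    (t : ℝ) : Continuous (PP s lam t) := by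
  unfold PP
  refine continuous_finsetSum _ fun j _ => ?_
  exact continuous_const.mul ((MvPolynomial.continuous_eval (s j)).norm.pow 2)

private lemma measF1 {m N : ℕ} (s : Fin N → MvPolynomial (Fin m) ℂ) (lam : Fin N → ℕ)
    (t : ℝ) : Measurable (F1 s lam t) := by
  unfold F1
  exact (contPPn 1 s lam t).measurable.div (contPP s lam t).measurable

private lemma Iw_div (C : Cone) (D : ℕ) {N : ℕ} (s : Fin N → MvPolynomial (Fin C.m) ℂ)
    (lam : Fin N → ℕ) (t : ℝ) (f : (Fin C.m → ℂ) → ℝ) (K : ℝ) :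
    Iw C D s lam t (fun z => f z / K) = Iw C D s lam t f / K := by
  unfold Iw
  rw [← integral_div]
  refine integral_congr_ae (Eventually.of_forall fun z => ?_)
  change f z / K * wt C D s lam t z = f z * wt C D s lam t z / K
  ring

/-- Module ETM. -/
theorem hETM : StEIN → StEVA → StEPO → StETM := by
  intro hEIN hEVA hEPO C r Λ k N s lam hG hS t ht htl
  obtain ⟨hI1, -, hx⟩ := hEVA C r Λ k N s lam hG hS t ht htl
  obtain ⟨-, -, hx0⟩ := hEVA C r Λ k N s lam hG hS (fun _ => 0) (fun _ => le_rfl)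
    tendsto_const_nhds
  have hn := hG.hn
  have hr := hS.hr
  have hΛ : (0 : ℝ) < Λ := by exact_mod_cast hS.hΛ
  have hk : ∀ i, (0 : ℝ) < k i := fun i => by exact_mod_cast hS.kpos i
  have hD : ∀ i, 0 < C.n * r * k i := fun i => Nat.mul_pos (Nat.mul_pos hn hr) (hS.kpos i)
  have hlam : ∀ i j, (lam i j : ℝ) ≤ (Λ : ℝ) * k i := fun i j => by exact_mod_cast hS.bd i j
  have hL : ∀ i, (0 : ℝ) < (Λ : ℝ) * k i := fun i => mul_pos hΛ (hk i)
  have hE := fun (i : ℕ) (z : Fin C.m → ℂ) (hz : z ∈ C.U) (τ : ℝ) (hτ : 0 ≤ τ) =>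
    hEPO C hG (C.n * r * k i) (N i) (hD i) (s i) (lam i) (hS.onb i).span ((Λ : ℝ) * k i) (hL i)
      (hlam i) z hz τ hτ
  have hb : ∀ i, ∀ τ : ℝ, 0 ≤ τ → ∀ z ∈ C.U, |F1 (s i) (lam i) τ z / k i| ≤ Λ := by
    intro i τ hτ z hz
    obtain ⟨-, -, -, h4, h5, -⟩ := hE i z hz τ hτ
    rw [abs_of_nonneg (div_nonneg h4 (hk i).le), div_le_iff₀ (hk i)]
    exact h5
  have hmx : ∀ i (τ : ℝ), Measurable (fun z => F1 (s i) (lam i) τ z / (k i : ℝ)) := fun i τ =>
    (measF1 (s i) (lam i) τ).div_const _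
  have h1 := hx (fun i z => F1 (s i) (lam i) (t i) z / k i) Λ
    (fun i => (hmx i (t i)).aestronglyMeasurable) (fun i z hz => hb i (t i) (ht i) z hz)
  have h2 := hx0 (fun i z => F1 (s i) (lam i) 0 z / k i) Λ
    (fun i => (hmx i 0).aestronglyMeasurable) (fun i z hz => hb i 0 le_rfl z hz)
  -- integrability
  have hone : IntegrableOn (fun _ : Fin C.m → ℂ => (1 : ℝ)) (S1 C) C.nu := by
    by_contra hc
    have : I1 C (fun _ => 1) = 0 := integral_undef hc
    rw [this] at hI1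
    exact lt_irrefl _ hI1
  have hmS := measS1 C hG
  have hint : ∀ i (τ : ℝ), 0 ≤ τ →
      IntegrableOn (fun z => F1 (s i) (lam i) τ z / (k i : ℝ)) (S1 C) C.nu := by
    intro i τ hτ
    refine Integrable.mono' (hone.const_mul (Λ : ℝ)) (hmx i τ).aestronglyMeasurable ?_
    refine (ae_restrict_iff' hmS).2 (Eventually.of_forall fun z hz => ?_)
    rw [Real.norm_eq_abs, mul_one]
    exact hb i τ hτ z hz.1
  have hsub : ∀ i, I1 C (fun z => (F1 (s i) (lam i) (t i) z - F1 (s i) (lam i) 0 z) / k i) =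
      I1 C (fun z => F1 (s i) (lam i) (t i) z / k i) -
        I1 C (fun z => F1 (s i) (lam i) 0 z / k i) := by
    intro i
    unfold I1
    rw [← integral_sub (hint i (t i) (ht i)) (hint i 0 le_rfl)]
    refine integral_congr_ae (Eventually.of_forall fun z => ?_)
    change (F1 (s i) (lam i) (t i) z - F1 (s i) (lam i) 0 z) / (k i : ℝ) =
      F1 (s i) (lam i) (t i) z / (k i : ℝ) - F1 (s i) (lam i) 0 z / (k i : ℝ)
    ring
  have hnn : ∀ i, 0 ≤
      I1 C (fun z => (F1 (s i) (lam i) (t i) z - F1 (s i) (lam i) 0 z) / k i) := by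
    intro i
    unfold I1
    refine setIntegral_nonneg hmS fun z hz => ?_
    obtain ⟨-, -, -, -, -, -, -, h8, -⟩ := hE i z hz.1 (t i) (ht i)
    exact div_nonneg (sub_nonneg.2 h8) (hk i).le
  -- the derivative of the volume
  have hUD : ∀ i (τ : ℝ), 0 ≤ τ → UD C (s i) (lam i) τ =
      (1 / (r : ℝ)) * (Iw C (C.n * r * k i) (s i) (lam i) τ
        (fun z => F1 (s i) (lam i) τ z / k i) /
          Iw C (C.n * r * k i) (s i) (lam i) τ (fun _ => 1)) := by
    intro i τ hτ
    obtain ⟨-, -, -, h4, -⟩ := hEIN C hG (C.n * r * k i) (N i) (hD i) (s i) (lam i)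
      (hS.onb i).span τ hτ
    have hn' : (C.n : ℝ) ≠ 0 := by exact_mod_cast hn.ne'
    have hr' : (r : ℝ) ≠ 0 := by exact_mod_cast hr.ne'
    have hk' : (k i : ℝ) ≠ 0 := (hk i).ne'
    have hm : (C.m : ℝ) = 2 * C.n := by exact_mod_cast hG.hm
    have e : (C.m : ℝ) / (2 * ((C.n * r * k i : ℕ) : ℝ)) = 1 / (r * k i) := by
      rw [hm]
      push_cast
      field_simp
    rw [h4, Iw_div, e]
    generalize Iw C (C.n * r * k i) (s i) (lam i) τ (F1 (s i) (lam i) τ) = a
    generalize Iw C (C.n * r * k i) (s i) (lam i) τ (fun _ => 1) = b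
    rw [one_div, one_div, mul_inv]
    ring
  rw [Metric.tendsto_atTop]
  intro ε hε
  have hr0 : (0 : ℝ) < r := by exact_mod_cast hr
  set V : ℝ := I1 C (fun _ => 1) with hV
  have hδ : 0 < ε / (4 * V) := by positivity
  have hε' : 0 < ε / (4 * V * r) := by positivity
  have e1 := (Metric.tendsto_atTop.1 h1) (ε / (4 * V)) hδ
  have e2 := (Metric.tendsto_atTop.1 h2) (ε / (4 * V)) hδ
  obtain ⟨n1, e1⟩ := e1
  obtain ⟨n2, e2⟩ := e2
  obtain ⟨n3, e3⟩ := eventually_atTop.1 (hS.slope (ε / (4 * V * r)) hε')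
  refine ⟨max n1 (max n2 n3), fun i hi => ?_⟩
  have g1 := e1 i (le_trans (le_max_left _ _) hi)
  have g2 := e2 i (le_trans (le_trans (le_max_left _ _) (le_max_right _ _)) hi)
  have g3 := e3 i (le_trans (le_trans (le_max_right _ _) (le_max_right _ _)) hi) (t i) (ht i)
  rw [hUD i (t i) (ht i), hUD i 0 le_rfl] at g3
  rw [Real.dist_eq, sub_zero] at g1 g2 ⊢
  rw [abs_of_nonneg (hnn i)]
  rw [hsub i]
  set A := Iw C (C.n * r * k i) (s i) (lam i) (t i) (fun z => F1 (s i) (lam i) (t i) z / k i) /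
    Iw C (C.n * r * k i) (s i) (lam i) (t i) (fun _ => 1) with hA
  set B := Iw C (C.n * r * k i) (s i) (lam i) 0 (fun z => F1 (s i) (lam i) 0 z / k i) /
    Iw C (C.n * r * k i) (s i) (lam i) 0 (fun _ => 1) with hB
  set X := I1 C (fun z => F1 (s i) (lam i) (t i) z / k i) with hX
  set Y := I1 C (fun z => F1 (s i) (lam i) 0 z / k i) with hY
  have g1' : |A - X / V| < ε / (4 * V) := g1
  have g2' : |B - Y / V| < ε / (4 * V) := g2
  have h3 : A ≤ B + ε / (4 * V) := by
    have h5 : (1 / (r : ℝ)) * A ≤ (1 / (r : ℝ)) * (B + ε / (4 * V)) := by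
      refine g3.trans (le_of_eq ?_)
      field_simp
    exact le_of_mul_le_mul_left h5 (by positivity)
  have h6 : X / V - Y / V < 3 * (ε / (4 * V)) := by
    have a1 := (abs_lt.1 g1').1
    have a2 := (abs_lt.1 g2').2
    linarith
  have h7 : X - Y < 3 * (ε / (4 * V)) * V := by
    rw [← sub_div, div_lt_iff₀ hI1] at h6
    exact h6
  have h8 : 3 * (ε / (4 * V)) * V = 3 / 4 * ε := by
    field_simp
  linarith

end Pool.Agent.Helper53.KP
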